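import Pool.Agent.W8.KU.Stm

/-!
Project KU, part Clu: the example is a cluster.
-/

open MeasureTheory Metric

namespace Pool.Agent.W238.KU

open Pool.Agent.W8.KU

theorem norm_P0 : ‖P0‖ = 20 := by
  simp [P0]

theorem disj01 : Disjoint (Metric.ball P0 2 ∪ Metric.ball 0 3)
    (Metric.ball (0 : E3) 6 \ Metric.closedBall 0 3) := by
  rw [Set.disjoint_left]
  intro x hx hy
  have h6 : ‖x‖ < 6 := by
    have := hy.1
    rwa [mem_ball_zero_iff] at this
  have h3 : ¬ ‖x‖ ≤ 3 := by
    intro h
    exact hy.2 (by rwa [mem_closedBall_zero_iff])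
  rcases hx with hx | hx
  · rw [mem_ball, dist_eq_norm] at hx
    have h1 : ‖P0‖ ≤ ‖x‖ + ‖x - P0‖ := by
      have := norm_sub_le x (x - P0)
      rwa [sub_sub_cancel] at this
    rw [norm_P0] at h1
    linarith
  · rw [mem_ball_zero_iff] at hx
    exact h3 hx.le

theorem open0 : IsOpen (Metric.ball P0 2 ∪ Metric.ball (0 : E3) 3) :=
  isOpen_ball.union isOpen_ball

theorem open1 : IsOpen (Metric.ball (0 : E3) 6 \ Metric.closedBall 0 3) :=
  isOpen_ball.sdiff isClosed_closedBall

theorem nonempty1 : (Metric.ball (0 : E3) 6 \ Metric.closedBall 0 3).Nonempty := by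
  refine ⟨EuclideanSpace.single 0 4, ?_, ?_⟩
  · rw [mem_ball_zero_iff]
    simp
    norm_num
  · rw [mem_closedBall_zero_iff]
    simp
    norm_num

theorem Clu_proof : Clu := by
  refine ⟨?_, ?_, ?_⟩
  · intro i
    fin_cases i
    · exact open0
    · exact open1
  · intro i j hij
    fin_cases i <;> fin_cases j
    · exact absurd rfl hij
    · exact disj01
    · exact disj01.symm
    · exact absurd rfl hij
  · intro i
    fin_cases i
    · refine ⟨open0.measure_pos volume ⟨P0, Or.inl (mem_ball_self (by norm_num))⟩, ?_⟩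
      exact (measure_union_le _ _).trans_lt
        (ENNReal.add_lt_top.2 ⟨measure_ball_lt_top, measure_ball_lt_top⟩)
    · refine ⟨open1.measure_pos volume nonempty1, ?_⟩
      exact (measure_mono Set.sdiff_subset).trans_lt measure_ball_lt_top

end Pool.Agent.W238.KU
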